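import Pool.Agent.helper55.NM.Spec3

set_option autoImplicit false

namespace Pool.Agent.helper23.NM

open Pool.Agent.NM Pool.Agent.helper72.UP Finset Nat

theorem AC3 : AC3_stmt := by
  intro α _ _ 𝒜 ρ hanti hne hcard hρ1 hρ2
  have hle3 : ∀ A : Finset α, A.card ≤ 3 := by
    intro A
    have h := Finset.card_le_univ A
    rw [hcard] at h
    exact h
  have hsub : ∀ A ∈ 𝒜, ∀ B ∈ 𝒜, A ⊆ B → A = B := by
    intro A hA B hB h
    exact hanti.eq (Finset.mem_coe.mpr hA) (Finset.mem_coe.mpr hB) h
  have r0 : 0 ≤ 1 - ρ := by linarith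
  have r1 : 0 ≤ ρ := by linarith
  have r2 : 0 ≤ ρ * (1 - ρ) ^ 2 := by positivity
  have r3 : 0 ≤ ρ ^ 2 * (1 - ρ) := by positivity
  by_cases hU : (univ : Finset α) ∈ 𝒜
  · right
    have hA : 𝒜 = {univ} := by
      apply Finset.eq_singleton_iff_unique_mem.mpr
      exact ⟨hU, fun A hA => hsub A hA univ hU (Finset.subset_univ A)⟩
    rw [hA, Finset.sum_singleton, Finset.card_univ, hcard]
    refine le_trans ?_ (le_trans (le_max_right _ _) (le_max_right _ _))
    have h1 : ρ ^ 3 * (1 - ρ) ^ (3 - 3) = ρ ^ 2 * ρ := by
      norm_num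
      ring
    rw [h1]
    have h2 : ρ ^ 2 * ρ ≤ ρ ^ 2 * (3 * (1 - ρ)) :=
      mul_le_mul_of_nonneg_left (by linarith) (by positivity)
    calc ρ ^ 2 * ρ ≤ ρ ^ 2 * (3 * (1 - ρ)) := h2
      _ = 3 * ρ ^ 2 * (1 - ρ) := by ring
  · have hlt : ∀ A ∈ 𝒜, A.card = 1 ∨ A.card = 2 := by
      intro A hA
      have h1 := (hne A hA).card_pos
      have h2 := hle3 A
      have h3 : A.card ≠ 3 := by
        intro h
        apply hU
        have h4 : A = univ := by
          rw [← Finset.card_eq_iff_eq_univ, h, hcard]
        rw [← h4]
        exact hA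
      omega
    by_cases hPex : ∃ P ∈ 𝒜, P.card = 2
    · obtain ⟨P, hP, hPc⟩ := hPex
      have key : ∀ A ∈ 𝒜, A.card = 1 → ∀ Q ∈ 𝒜, Q.card = 2 → A = Qᶜ := by
        intro A hA hA1 Q hQ hQ2
        apply Finset.eq_of_subset_of_card_le
        · intro a ha
          rw [Finset.mem_compl]
          intro haQ
          have hsA : A ⊆ Q := by
            obtain ⟨b, rfl⟩ := Finset.card_eq_one.mp hA1
            rw [Finset.mem_singleton] at ha
            rw [Finset.singleton_subset_iff, ← ha]
            exact haQ
          have h5 := hsub A hA Q hQ hsA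
          rw [h5, hQ2] at hA1
          omega
        · rw [Finset.card_compl, hcard, hQ2, hA1]
      right
      by_cases hQex : ∃ Q ∈ 𝒜, Q.card = 2 ∧ Q ≠ P
      · obtain ⟨Q, hQ, hQc, hQP⟩ := hQex
        have hall : ∀ A ∈ 𝒜, A.card = 2 := by
          intro A hA
          rcases hlt A hA with h | h
          · exfalso
            apply hQP
            have e1 := key A hA h Q hQ hQc
            have e2 := key A hA h P hP hPc
            exact compl_injective (e1.symm.trans e2)
          · exact h
        have hs : ∑ A ∈ 𝒜, ρ ^ A.card * (1 - ρ) ^ (3 - A.card) =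
            ∑ _A ∈ 𝒜, ρ ^ 2 * (1 - ρ) := by
          apply Finset.sum_congr rfl
          intro A hA
          rw [hall A hA]
          norm_num
        have hc : 𝒜.card ≤ 3 := by
          have h1 : 𝒜 ⊆ powersetCard 2 (univ : Finset α) := by
            intro A hA
            rw [Finset.mem_powersetCard]
            exact ⟨Finset.subset_univ A, hall A hA⟩
          have h2 := Finset.card_le_card h1
          rw [Finset.card_powersetCard, Finset.card_univ, hcard] at h2
          exact h2
        rw [hs, Finset.sum_const, nsmul_eq_mul]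
        refine le_trans ?_ (le_trans (le_max_right _ _) (le_max_right _ _))
        have hc' : (𝒜.card : ℝ) ≤ 3 := by exact_mod_cast hc
        calc (𝒜.card : ℝ) * (ρ ^ 2 * (1 - ρ)) ≤ 3 * (ρ ^ 2 * (1 - ρ)) :=
              mul_le_mul_of_nonneg_right hc' r3
          _ = 3 * ρ ^ 2 * (1 - ρ) := by ring
      · have hsubset : 𝒜 ⊆ {P, Pᶜ} := by
          intro A hA
          rw [Finset.mem_insert, Finset.mem_singleton]
          rcases hlt A hA with h | h
          · right
            exact key A hA h P hP hPc
          · left
            by_contra hne'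
            exact hQex ⟨A, hA, h, hne'⟩
        have hPcc : (Pᶜ).card = 1 := by
          rw [Finset.card_compl, hcard, hPc]
        have hPP : P ≠ Pᶜ := by
          intro h
          rw [← h, hPc] at hPcc
          omega
        refine le_trans ?_ (le_trans (le_max_left _ _) (le_max_right _ _))
        calc ∑ A ∈ 𝒜, ρ ^ A.card * (1 - ρ) ^ (3 - A.card)
            ≤ ∑ A ∈ {P, Pᶜ}, ρ ^ A.card * (1 - ρ) ^ (3 - A.card) := by
              apply Finset.sum_le_sum_of_subset_of_nonneg hsubset
              intro A _ _
              positivity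
          _ = ρ * (1 - ρ) := by
              rw [Finset.sum_pair hPP, hPc, hPcc]
              norm_num
              ring
    · have hall : ∀ A ∈ 𝒜, A.card = 1 := by
        intro A hA
        rcases hlt A hA with h | h
        · exact h
        · exact absurd ⟨A, hA, h⟩ hPex
      by_cases h3 : 𝒜 = univ.filter (fun A : Finset α => A.card = 1)
      · left
        exact h3
      · right
        have h4 : 𝒜 ⊆ univ.filter (fun A : Finset α => A.card = 1) := by
          intro A hA
          rw [Finset.mem_filter]
          exact ⟨Finset.mem_univ A, hall A hA⟩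
        have h5 : 𝒜.card < (univ.filter (fun A : Finset α => A.card = 1)).card :=
          Finset.card_lt_card (Finset.ssubset_iff_subset_ne.mpr ⟨h4, h3⟩)
        have h6 : (univ.filter (fun A : Finset α => A.card = 1)).card ≤ 3 := by
          have h7 : univ.filter (fun A : Finset α => A.card = 1) ⊆
              powersetCard 1 (univ : Finset α) := by
            intro A hA
            rw [Finset.mem_filter] at hA
            rw [Finset.mem_powersetCard]
            exact ⟨Finset.subset_univ A, hA.2⟩
          have h8 := Finset.card_le_card h7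
          rw [Finset.card_powersetCard, Finset.card_univ, hcard] at h8
          exact h8
        have hc : 𝒜.card ≤ 2 := by omega
        have hs : ∑ A ∈ 𝒜, ρ ^ A.card * (1 - ρ) ^ (3 - A.card) =
            ∑ _A ∈ 𝒜, ρ * (1 - ρ) ^ 2 := by
          apply Finset.sum_congr rfl
          intro A hA
          rw [hall A hA]
          norm_num
        rw [hs, Finset.sum_const, nsmul_eq_mul]
        refine le_trans ?_ (le_max_left _ _)
        have hc' : (𝒜.card : ℝ) ≤ 2 := by exact_mod_cast hc
        calc (𝒜.card : ℝ) * (ρ * (1 - ρ) ^ 2) ≤ 2 * (ρ * (1 - ρ) ^ 2) :=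
              mul_le_mul_of_nonneg_right hc' r2
          _ = 2 * ρ * (1 - ρ) ^ 2 := by ring

end Pool.Agent.helper23.NM
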